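import Pool.Agent.Work.MP_db9399_lt_helper94.Final0
import Pool.Agent.Work.MP_db9399_lt_helper99.STR

/-!
# THEOREM LT, unconditional
-/

set_option autoImplicit false

namespace Pool.Agent.Work.MP_db9399_lt.helper94

universe u

/-- LT: one almost complete spot with a spread precoloured boundary -/
theorem lt : Stmt_LT.{u} := lt_of (helper99.stmt_STR helper99.stmt_SWITCH)

end Pool.Agent.Work.MP_db9399_lt.helper94
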