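import Pool.Agent.Work.MP_db9399_lt_helper94.LT
import Pool.Agent.Work.MP_db9399_dn.CORE
import Pool.Agent.Work.MP_db9399_nc_helper21.PM
import Pool.Agent.Work.MP_db9399_nc_helper21.COMP
import Pool.Agent.Work.MP_db9399_nc_helper21.ABSB
import Pool.Agent.Work.MP_db9399_nc_helper63.STAR
import Pool.Agent.Work.MP_db9399_nc_helper63.CLEAN
import Pool.Agent.Work.MP_db9399_nc_helper1.GRS
import Pool.Agent.Work.MP_db9399_lt_helper99.SWITCH
import Pool.Agent.Work.MP_db9399_lt_helper54.PREP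
import Pool.Agent.Work.MP_db9399_lt_helper29.GALVC
import Pool.Agent.Work.MP_db9399_lt_helper21.DENSE
import Pool.Agent.Work.MP_db9399_lt_helper21.FINBE
import Pool.Agent.Work.MP_db9399_lt_helper21.FINBO
import Pool.Agent.Work.MP_db9399_lt_helper52.DRA
import Pool.Agent.Work.MP_db9399_lt_helper52.LST
import Pool.Agent.Work.MP_db9399_lt_helper52.PARI
import Pool.Agent.Work.MP_db9399_lt_helper67.DRB
import Pool.Agent.Work.MP_db9399_lt_helper67.LCOL
import Pool.Agent.Work.MP_db9399_lt_helper39.DRC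
import Pool.Agent.Work.MP_db9399_lt_helper39.DRN
import Pool.Agent.Work.MP_db9399_lt_helper15.CLEAN2
import Pool.Agent.Work.MP_db9399_lt_helper15.FINAE
import Pool.Agent.Work.MP_db9399_lt_helper15.FINAO
import Pool.Agent.Work.MP_db9399_lt_helper14.COMPR
import Pool.Agent.Work.MP_db9399_lt_helper14.TWIN
import Pool.Agent.Work.MP_db9399_lt_helper14.FINR
import Pool.Agent.Work.MP_db9399_lt_helper20.TARGET
import Pool.Agent.Work.MP_db9399_lt_helper20.TGT
import Pool.Agent.Work.MP_db9399_lt_helper20.KOEN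
import Pool.Agent.Work.MP_db9399_lt_helper22.SPEC
import Pool.Agent.Work.MP_db9399_lt_helper22.XSEL
import Pool.Agent.Work.MP_db9399_lt_helper22.ADJ
import Pool.Agent.Work.MP_db9399_lt_helper83.Q2R

/-!
# LT from STR, everything else proved
-/

set_option autoImplicit false

namespace Pool.Agent.Work.MP_db9399_lt.helper94

open Pool.Agent.Work

universe u

theorem nc_PM : MP_db9399_nc.Stmt_PM.{u} := MP_db9399_nc.helper21.stmt_PM
theorem nc_COMP : MP_db9399_nc.Stmt_COMP.{u} := MP_db9399_nc.helper21.stmt_COMP nc_PM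
theorem nc_ABSB : MP_db9399_nc.Stmt_ABSB.{u} := MP_db9399_nc.helper21.stmt_ABSB
theorem nc_STAR : MP_db9399_nc.Stmt_STAR.{u} := MP_db9399_nc.helper63.stmt_STAR
theorem nc_CLEAN : MP_db9399_nc.Stmt_CLEAN.{u} :=
  MP_db9399_nc.helper63.stmt_CLEAN MP_db9399_dn.CORE.stmt_CORE nc_STAR
theorem nc_GRS : MP_db9399_nc.Stmt_GRS.{u} := MP_db9399_nc.helper1.stmt_GRS

theorem compr : Stmt_COMPR.{u} := helper14.stmt_COMPR nc_PM

/-- perfect 1-factorisation of very dense regular graphs of even order -/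
theorem dense : Stmt_DENSE.{u} :=
  helper21.stmt_DENSE (helper52.stmt_DRA helper14.stmt_TWIN helper39.stmt_DRN helper99.stmt_SWITCH)
    (helper67.stmt_DRB nc_GRS) helper39.stmt_DRC helper20.stmt_KOEN

theorem finr : Stmt_FINR.{u} :=
  helper14.stmt_FINR (helper15.stmt_FINAE nc_ABSB nc_COMP nc_CLEAN)
    (helper15.stmt_FINAO nc_ABSB nc_COMP
      (helper15.stmt_CLEAN2 MP_db9399_dn.CORE.stmt_CORE nc_STAR))
    (helper21.stmt_FINBE nc_COMP dense nc_STAR) (helper21.stmt_FINBO nc_COMP dense)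

theorem lt_of (hS : Stmt_STR.{u}) : Stmt_LT.{u} :=
  stmt_LT (helper54.stmt_PREP helper22.stmt_SPEC helper29.stmt_GALVC)
    (helper20.stmt_TGT helper20.stmt_TARGET) helper22.stmt_XSEL hS
    (helper67.stmt_LCOL nc_GRS) helper22.stmt_XSEL2
    (helper83.stmt_Q2R helper22.stmt_ADJ helper52.stmt_PARI compr)
    (helper52.stmt_LST finr)

end Pool.Agent.Work.MP_db9399_lt.helper94
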