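import Pool.Agent.Work.MP_db9399_lt.Base

/-!
# LT: the assembly
-/

set_option autoImplicit false

namespace Pool.Agent.Work.MP_db9399_lt.helper94

open Finset Classical
open Pool.Agent.Work.MP_db9399_all (nb)
open Pool.Agent.Work.MP_db9399_nc (nn PEC Mts mem_nb mem_nn)

universe u

theorem stmt_LT (hP : Stmt_PREP.{u}) (hT : Stmt_TGT.{u}) (hX : Stmt_XSEL.{u})
    (hS : Stmt_STR.{u}) (hL : Stmt_LCOL.{u}) (hX2 : Stmt_XSEL2.{u}) (hQ : Stmt_Q2R.{u})
    (hLS : Stmt_LST.{u}) : Stmt_LT.{u} := by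
  intro V _ G d x y h s F p a C0 H
  obtain ⟨C, Q1, Q2, su, sv, e1, e2, N, P⟩ := hP G d x y h s F p a C0 H
  obtain ⟨τ, T⟩ := hT G d x y h s F p a C0 C Q1 Q2 su sv e1 e2 N H P
  obtain ⟨X, hXS, hX1⟩ := hX G d x y h s F p a C0 C Q1 Q2 su sv e1 e2 N τ H P
  obtain ⟨M, hM⟩ := hS G d x y h s F p a C0 C Q1 Q2 su sv e1 e2 N τ X H P T hXS hX1
  -- the colouring of the remaining edges between the parts
  have hxh := H.xh
  have hx1 := H.x1
  have hhd := H.hd
  obtain ⟨K, hK1, hK2, hK3, hK4, hK5⟩ := hL (lg G h p (cc C ∪ Q1) e1 e2 M) F Q2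
    (univ.filter (fun v => ∃ k < 4 * h, v = e1 k ∨ v = e2 k)) d h x
    (by
      intro v
      refine le_trans (Nat.mul_le_mul_left _ (Finset.card_le_card ?_)) (hM.lam v)
      intro w hw
      rw [mem_nb] at hw
      rw [Finset.mem_filter]
      exact ⟨Finset.mem_univ _, hw.1, hw.2.1, hw.2.2.1, fun b hb => (hw.2.2.2 b hb).1⟩)
    H.Fx (by norm_num at hxh ⊢; omega) hx1 (by norm_num at hhd ⊢; omega)
    (by
      have h1 := H.card_d.1
      have h2 := H.xd
      norm_num at h2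
      omega)
    (by
      have h1 : univ.filter (fun v : V => ∃ k < 4 * h, v = e1 k ∨ v = e2 k) ⊆
          (range (4 * h)).image e1 ∪ (range (4 * h)).image e2 := by
        intro v hv
        rw [Finset.mem_filter] at hv
        obtain ⟨_, k, hk, hv⟩ := hv
        rw [Finset.mem_union, Finset.mem_image, Finset.mem_image]
        rcases hv with hv | hv
        · exact Or.inl ⟨k, Finset.mem_range.mpr hk, hv.symm⟩
        · exact Or.inr ⟨k, Finset.mem_range.mpr hk, hv.symm⟩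
      refine (Finset.card_le_card h1).trans ((Finset.card_union_le _ _).trans ?_)
      have h2 : ((range (4 * h)).image e1).card ≤ 4 * h :=
        Finset.card_image_le.trans (by rw [Finset.card_range])
      have h3 : ((range (4 * h)).image e2).card ≤ 4 * h :=
        Finset.card_image_le.trans (by rw [Finset.card_range])
      omega)
    P.q2
  have LQ1 : LQ G d h F p (cc C ∪ Q1) Q2 e1 e2 M K := by
    refine ⟨hK1, hK2, hK3, hK4, ?_⟩
    intro b hb
    refine le_trans (Nat.mul_le_mul_left _ (Finset.card_le_card ?_)) (hK5 b hb)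
    intro v hv
    rw [Finset.mem_filter] at hv
    rw [Finset.mem_filter, Finset.mem_filter]
    exact ⟨⟨Finset.mem_univ _, hv.2.2⟩, hv.2.1⟩
  obtain ⟨X', hX'1, hX'2, hX'3⟩ :=
    hX2 G d x y h s F p a C0 C Q1 Q2 su sv e1 e2 N M K τ X H P hXS LQ1
  have hM' : ST1 G h F p C Q1 X' e1 e2 M :=
    ⟨hM.mts, hM.cv, fun b hb v => by rw [hX'2 b hb]; exact hM.covQ b hb v, hM.nA, hM.lam, hM.inn⟩
  obtain ⟨M', R⟩ := hQ G d x y h s F p a C0 C Q1 Q2 su sv e1 e2 N M K τ X' H P T hX'1 hM' LQ1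
    hX'3
  exact hLS G d x y h s F p a C0 C Q1 Q2 su sv e1 e2 N M' τ X' H P T hX'1 R

end Pool.Agent.Work.MP_db9399_lt.helper94
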